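import Pool.Agent.Lib.MP_2cd45e_co.Slow

/-!
# The limit points of the Hermite constant divided by the dimension

`hermite d` is the Hermite constant in dimension `d`, exactly as in the frozen statement of the
problem; let `α` and `β` be the lower and the upper limit of `hermite d / d`. For every `c` in
`[α, β]` and `ε > 0` there is `δ > 0` such that for infinitely many `d` ALL dimensions in
`[d, (1 + δ) d]` satisfy `|hermite n / n - c| < ε`. So the limit points are exactly the points of the
interval `[α, β]`, and for each of them the set of the `d` with `|hermite d / d - c| < ε` has positive upper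
density.
-/

open Filter Topology
open Pool.Agent.Lib.MP_2cd45e_co

namespace Pool.Agent.Results.MP_2cd45e_co.LimitPoints

/-- windows for a bounded slowly decreasing sequence -/
theorem window {u : ℕ → ℝ} (hu : SlowDec u) {c ε : ℝ} (hε : 0 < ε)
    (h1 : ∀ η > 0, ∃ᶠ d in atTop, c - η < u d) (h2 : ∀ η > 0, ∃ᶠ d in atTop, u d < c + η) :
    ∃ δ > 0, ∃ᶠ d : ℕ in atTop, ∀ n : ℕ, d ≤ n → (n : ℝ) ≤ (1 + δ) * d → |u n - c| < ε := by
  obtain ⟨δ, hδ, hs⟩ := hu (ε / 12) (by positivity)
  refine ⟨δ, hδ, ?_⟩
  by_cases hb : ∃ᶠ d in atTop, c + ε / 3 ≤ u d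
  · rw [frequently_atTop] at hb ⊢
    intro N
    obtain ⟨D, hD⟩ := exists_nat_ge (1 / δ)
    obtain ⟨a, ha, ha1⟩ := hb (max N (max D 1))
    simp only [max_le_iff] at ha
    have h3 := h2 (ε / 6) (by positivity)
    rw [frequently_atTop] at h3
    obtain ⟨b, hb0, hb1⟩ := h3 a
    -- the last place before b with a large value
    obtain ⟨e, he⟩ : ∃ e, e = Nat.findGreatest (fun k => c + ε / 3 ≤ u k) b := ⟨_, rfl⟩
    have e1 : a ≤ e := he ▸ Nat.le_findGreatest hb0 ha1
    have e2 : c + ε / 3 ≤ u e := by
      rw [he]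
      exact Nat.findGreatest_spec (P := fun k => c + ε / 3 ≤ u k) hb0 ha1
    have e3 : ∀ k, e < k → k ≤ b → u k < c + ε / 3 := by
      intro k hk hkb
      by_contra hcon
      exact Nat.findGreatest_is_greatest (P := fun k => c + ε / 3 ≤ u k) (he ▸ hk) hkb
        (not_lt.1 hcon)
    have e4 : e ≤ b := he ▸ Nat.findGreatest_le b
    have e5 : e ≠ b := by
      rintro rfl
      linarith
    have he0 : 0 < e := by omega
    have he1 : 1 / δ ≤ (e : ℝ) := by
      refine hD.trans ?_
      exact_mod_cast ha.2.1.trans e1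
    have e6 : u e - ε / 12 ≤ u (e + 1) := by
      refine hs e (e + 1) he0 (by omega) ?_
      rw [div_le_iff₀ hδ] at he1
      push_cast
      nlinarith
    have e7 : (1 + δ) * ((e + 1 : ℕ) : ℝ) < b := by
      by_contra hcon
      rw [not_lt] at hcon
      have := hs (e + 1) b (by omega) (by omega) hcon
      linarith
    refine ⟨e + 1, by omega, fun n hn hn1 => ?_⟩
    have hnb : n ≤ b := by
      have : (n : ℝ) ≤ b := (hn1.trans_lt e7).le
      exact_mod_cast this
    have e8 := hs (e + 1) n (by omega) hn hn1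
    have e9 := e3 n (by omega) hnb
    rw [abs_lt]
    constructor <;> linarith
  · rw [not_frequently] at hb
    have h3 := (h1 (ε / 3) (by positivity)).and_eventually
      (hb.and (eventually_gt_atTop 0))
    obtain ⟨N, hN⟩ := eventually_atTop.1 hb
    refine (h3.and_eventually (eventually_ge_atTop N)).mono ?_
    rintro d ⟨⟨hd1, -, hd0⟩, hdN⟩ n hn hn1
    have h4 := hs d n hd0 hn hn1
    have h5 := not_le.1 (hN n (hdN.trans hn))
    rw [abs_lt]
    constructor <;> linarith

theorem bddA : IsBoundedUnder (· ≤ ·) atTop quo := isBoundedUnder_of ⟨4, quo_le⟩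

theorem bddB : IsBoundedUnder (· ≥ ·) atTop quo := isBoundedUnder_of ⟨0, quo_nonneg⟩

/-- the values near a number between the lower and the upper limit -/
theorem quo_window {c ε : ℝ} (hε : 0 < ε) (h1 : liminf quo atTop ≤ c) (h2 : c ≤ limsup quo atTop) :
    ∃ δ > 0, ∃ᶠ d : ℕ in atTop, ∀ n : ℕ, d ≤ n → (n : ℝ) ≤ (1 + δ) * d → |quo n - c| < ε := by
  refine window quo_slowDec hε (fun η hη => ?_) (fun η hη => ?_)
  · exact frequently_lt_of_lt_limsup bddB.isCoboundedUnder_le (by linarith)
  · exact frequently_lt_of_liminf_lt bddA.isCoboundedUnder_ge (by linarith)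

/-- The limit points of `hermite d / d` and the dimensions near them. -/
theorem result :
    -- every number between the lower and the upper limit is approximated on whole intervals
    (∀ c : ℝ, liminf (fun d : ℕ => hermite d / d) atTop ≤ c →
      c ≤ limsup (fun d : ℕ => hermite d / d) atTop → ∀ ε > 0, ∃ δ > 0, ∃ᶠ d : ℕ in atTop,
        ∀ n : ℕ, d ≤ n → (n : ℝ) ≤ (1 + δ) * d → |hermite n / n - c| < ε) ∧
    -- the set of limit points
    {c : ℝ | MapClusterPt c atTop fun d : ℕ => hermite d / d} =
      Set.Icc (liminf (fun d : ℕ => hermite d / d) atTop)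
        (limsup (fun d : ℕ => hermite d / d) atTop) := by
  refine ⟨fun c h1 h2 ε hε => quo_window hε h1 h2, Set.Subset.antisymm ?_ ?_⟩
  · intro c hc
    have hc' : MapClusterPt c atTop quo := hc
    constructor
    · refine le_of_forall_pos_le_add fun ε hε => ?_
      refine liminf_le_of_frequently_le ?_ bddB
      refine (hc'.frequently (Metric.ball_mem_nhds c hε)).mono fun d hd => ?_
      have hd' : |quo d - c| < ε := by rwa [Real.dist_eq] at hd
      have h5 : quo d ≤ c + ε := by linarith [(abs_lt.1 hd').2]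
      exact h5
    · refine le_of_forall_pos_le_add fun ε hε => ?_
      rw [← sub_le_iff_le_add]
      refine le_limsup_of_frequently_le ?_ bddA
      refine (hc'.frequently (Metric.ball_mem_nhds c hε)).mono fun d hd => ?_
      have hd' : |quo d - c| < ε := by rwa [Real.dist_eq] at hd
      have h5 : c - ε ≤ quo d := by linarith [(abs_lt.1 hd').1]
      exact h5
  · rintro c ⟨h1, h2⟩
    show MapClusterPt c atTop quo
    rw [mapClusterPt_iff_frequently]
    intro s hs
    obtain ⟨ε, hε, hsub⟩ := Metric.mem_nhds_iff.1 hs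
    obtain ⟨δ, hδ, h⟩ := quo_window hε h1 h2
    refine h.mono fun d hd => hsub ?_
    rw [Metric.mem_ball, Real.dist_eq]
    refine hd d le_rfl ?_
    have : (0 : ℝ) ≤ d := Nat.cast_nonneg d
    nlinarith

end Pool.Agent.Results.MP_2cd45e_co.LimitPoints
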