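import Pool.Agent.Lib.MP_2cd45e_co.Final

/-!
# Equivalent forms of the convergence of the Hermite constant divided by the dimension

`hermite d` is the Hermite constant in dimension `d`, exactly as in the frozen statement of the
problem. The convergence of `hermite d / d` (the question) is equivalent to its convergence along
one sequence of dimensions with ratios tending to `1`; to the absence of asymptotic losses under
repeated doubling and tripling of the dimension; to the convergence of the arithmetic means; and to
the convergence of the geometric means.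
-/

open Filter Topology
open Pool.Agent.Lib.MP_2cd45e_co

theorem Pool.Agent.Results.MP_2cd45e_co.Reformulations.result : List.TFAE [
    -- the question: the limit of `hermite d / d` exists
    ∃ L : ℝ, Tendsto (fun d : ℕ => hermite d / d) atTop (𝓝 L),
    -- it exists along a sequence of dimensions with ratios tending to `1`
    ∃ s : ℕ → ℕ, StrictMono s ∧ Tendsto (fun k => (s (k + 1) : ℝ) / s k) atTop (𝓝 1) ∧
      ∃ L : ℝ, Tendsto (fun k => hermite (s k) / s k) atTop (𝓝 L),
    -- for all `δ > 0` it exists along a sequence with ratios eventually at most `1 + δ`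
    ∀ δ > 0, ∃ s : ℕ → ℕ, StrictMono s ∧ (∀ᶠ k in atTop, (s (k + 1) : ℝ) ≤ (1 + δ) * s k) ∧
      ∃ L : ℝ, Tendsto (fun k => hermite (s k) / s k) atTop (𝓝 L),
    -- no asymptotic loss under repeated doubling and tripling of the dimension
    ∀ ε > 0, ∃ D : ℕ, ∀ d ≥ D, ∀ i j : ℕ,
      hermite d / d - ε ≤ hermite (2 ^ i * 3 ^ j * d) / ((2 ^ i * 3 ^ j * d : ℕ) : ℝ),
    -- the arithmetic means converge
    ∃ L : ℝ, Tendsto (fun N : ℕ => (∑ d ∈ Finset.range N, hermite (d + 1) / ((d + 1 : ℕ) : ℝ)) / N)
      atTop (𝓝 L),
    -- the geometric means converge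
    ∃ L : ℝ, Tendsto (fun N : ℕ =>
      (∏ d ∈ Finset.range N, hermite (d + 1) / ((d + 1 : ℕ) : ℝ)) ^ ((1 : ℝ) / N)) atTop (𝓝 L)] :=
  final
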